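import Pool.Agent.Q19.BimMain

set_option autoImplicit false

/-!
# MP_edd14c_al: complemented Dedekind-MacNeille completions as injective hulls

There is a variety of commutative `ℓ`-bimonoids which properly contains the bounded distributive
lattices and in which complemented DM completions are injective hulls.

Definitions used (all in `Pool.Agent.Q19`): `CLB` (commutative `ℓ`-bimonoids), `IsHom`, `IsComp`
(complements), `IsCDM` (complemented DM completions) in `Bim.lean`; `Tm`, `Tm.eval` (terms),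
`Mod S A` (`A` satisfies the set `S` of identities), `IsBDL` in `BimV.lean`; `IsInjHull` in
`BimMain.lean`.
-/

universe u

namespace Pool.Agent.Results.MP_edd14c_al.HullVariety

open Pool.Agent.Q19.Bim

theorem not_BDL : ¬ IsBDL (K (Set PUnit.{u + 1}) ⊤) := by
  intro h
  have h1 := h.1 (0 : K (Set PUnit.{u + 1}) ⊤) 0
  rw [inf_idem] at h1
  have h2 := congrArg K.a h1
  rw [K.mul_a, K.zero_a, K.zero_b, inf_idem, inf_idem, bot_sup_eq] at h2
  exact top_ne_bot h2

theorem result : ∃ S : Set (Tm × Tm),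
    (∀ (A : Type u) [CLB A], IsBDL A → Mod S A) ∧
    (∃ (A : Type u) (_ : CLB A), Mod S A ∧ ¬ IsBDL A) ∧
    ∀ (A : Type u) [CLB A], Mod S A →
      (∃ (B : Type u) (_ : CLB B) (e : A → B), IsCDM e) ∧
      ∀ (B : Type u) [CLB B] (e : A → B), IsCDM e → Mod S B ∧ IsInjHull S e := by
  refine ⟨Sig, fun A _ h => mod_BDL h, ⟨K (Set PUnit.{u + 1}) ⊤, inferInstance, mod_K _, not_BDL⟩,
    fun A _ hA => ⟨?_, fun B _ e he => ⟨(every hA e he).mod, every hA e he⟩⟩⟩
  obtain ⟨E, i, e, he, _⟩ := concrete hA
  exact ⟨E, i, e, he⟩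

end Pool.Agent.Results.MP_edd14c_al.HullVariety
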